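import Pool.Agent.H515.LP.GalT
import Pool.Agent.H515.LP.Cyc

/-!
# The `l`-part of the class numbers in `ℤ_p`-extensions: passage to `l`-extensions

Let `E_0 = k, E_1, E_2, ...` be the layers of a `ℤ_p`-extension of a number field `k`, let `l ≠ p` be a prime,
and let `K / k` be a tower of Galois extensions of `l`-power degree such that the primes of `k` which ramify in `K`
are finitely decomposed in the `ℤ_p`-extension; this is always the case for the cyclotomic `ℤ_p`-extension. If the
exponent of `l` in the class number of `E_n` is bounded, then the exponent of `l` in the class number of `K E_n` is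
constant for all large `n`.

Proof. For one step `F / k` the number of the elements of order `l` in the class group of `F E_n` is bounded, by
Chevalley's formula for `F E_n / E_n`. The cyclic group of order `p ^ n` acts on these elements; if there are at
most `p ^ n` of them, the subgroup of order `p` acts trivially, so the norm to `F E_{n-1}` is injective on the
`l`-part of the class group.
-/

set_option autoImplicit false

namespace Pool.Agent.Results.MP_85533d_nt.LExtensions

open NumberField IsDedekindDomain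

/-- the inclusion `K ⊆ L` as an algebra structure -/
@[reducible] noncomputable def incl {K L : IntermediateField ℚ ℂ} (h : K ≤ L) : Algebra K L :=
  (IntermediateField.inclusion h).toRingHom.toAlgebra

/-- `K / k` is Galois, with cyclic Galois group, of degree `d`. -/
def CyclicExt (k K : IntermediateField ℚ ℂ) (d : ℕ) : Prop :=
  ∃ h : k ≤ K, letI := incl h
    IsGalois k K ∧ IsCyclic (K ≃ₐ[k] K) ∧ Module.finrank k K = d

/-- `E 0 ≤ E 1 ≤ ...` are the layers of a `ℤ_p`-extension of `k`. -/
def IsZp (p : ℕ) (k : IntermediateField ℚ ℂ) (E : ℕ → IntermediateField ℚ ℂ) : Prop :=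
  Monotone E ∧ ∀ n, CyclicExt k (E n) (p ^ n)

/-- `K / k` is a Galois extension, of degree a power of `l`. -/
def GaloisPow (l : ℕ) (k K : IntermediateField ℚ ℂ) : Prop :=
  ∃ h : k ≤ K, letI := incl h
    IsGalois k K ∧ ∃ s : ℕ, Module.finrank k K = l ^ s

/-- `K / k` is a tower of Galois extensions of degree a power of `l`. -/
inductive Tower (l : ℕ) : IntermediateField ℚ ℂ → IntermediateField ℚ ℂ → Prop
  | refl (k) : Tower l k k
  | step {k F K} : GaloisPow l k F → Tower l F K → Tower l k K

/-- The prime `u` of `E` lies above a prime of `k` which is ramified in `K`. -/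
def RamBelow (k K : Type) {E : Type} [Field k] [Field K] [Field E] [Algebra k K] [Algebra k E]
    (u : HeightOneSpectrum (𝓞 E)) : Prop :=
  ∃ v : HeightOneSpectrum (𝓞 K), v.asIdeal.comap (algebraMap (𝓞 k) (𝓞 K)) =
      u.asIdeal.comap (algebraMap (𝓞 k) (𝓞 E)) ∧
    (u.asIdeal.comap (algebraMap (𝓞 k) (𝓞 E))).map (algebraMap (𝓞 k) (𝓞 K)) ≤ v.asIdeal ^ 2

/-- The primes of `k` which are ramified in `K` are finitely decomposed in the extension with the layers `E n`: the
number of the primes of `E n` above them is bounded. -/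
def FinDec (k K : IntermediateField ℚ ℂ) (E : ℕ → IntermediateField ℚ ℂ) : Prop :=
  ∃ B : ℕ, ∀ (n : ℕ) (h1 : k ≤ K) (h2 : k ≤ E n), letI := incl h1; letI := incl h2
    {u : HeightOneSpectrum (𝓞 (E n)) | RamBelow k K u}.encard ≤ B

/-- The extension with the layers `E n` is cyclotomic: every layer is contained in `k(ζ)` for a root of unity `ζ` of
order a power of `p`. -/
def Cyclotomic (p : ℕ) (k : IntermediateField ℚ ℂ) (E : ℕ → IntermediateField ℚ ℂ) : Prop :=
  ∀ n, ∃ (m : ℕ) (ζ : ℂ), IsPrimitiveRoot ζ (p ^ m) ∧ E n ≤ k ⊔ IntermediateField.adjoin ℚ {ζ}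

theorem ram_iff {k K E : Type} [Field k] [NumberField k] [Field K] [NumberField K] [Field E]
    [NumberField E] [Algebra k K] [Algebra k E] (w : HeightOneSpectrum (𝓞 E)) :
    RamBelow k K w ↔ ¬ Pool.Agent.Q92.AR.Unramified K (w.under (𝓞 k)) := by
  unfold Pool.Agent.Q92.AR.Unramified
  push Not
  constructor
  · rintro ⟨u, h1, h2⟩
    exact ⟨u, HeightOneSpectrum.ext h1, h2⟩
  · rintro ⟨u, h1, h2⟩
    exact ⟨u, congrArg HeightOneSpectrum.asIdeal h1, h2⟩

theorem tower_iff {l : ℕ} (hl : l.Prime) {k K : IntermediateField ℚ ℂ} (h : Tower l k K) :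
    NumberField k → Pool.Agent.H515.LP.Tower l k K := by
  induction h with
  | refl k => exact fun _ => Pool.Agent.H515.LP.Tower.refl k
  | @step k F K h1 _ ih =>
    intro hk
    obtain ⟨h2, h3, s, h4⟩ := h1
    let _ := incl h2
    have h5 : FiniteDimensional k F := FiniteDimensional.of_finrank_pos (by
      rw [h4]
      exact pow_pos hl.pos s)
    have hF : NumberField F := NumberField.of_module_finite k F
    exact (Pool.Agent.H515.LP.gal_tower hl s k F hk hF h2 h3 h4).trans (ih hF)

theorem few_of {k K E : IntermediateField ℚ ℂ} {B : ℕ}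
    (h : ∀ (h1 : k ≤ K) (h2 : k ≤ E), letI := incl h1; letI := incl h2
      {u : HeightOneSpectrum (𝓞 E) | RamBelow k K u}.encard ≤ B) :
    Pool.Agent.H515.LP.Few k K E B := by
  intro n1 n2 n3 h1 h2
  let a1 : Algebra k K := incl h1
  let a2 : Algebra k E := incl h2
  have h3 : {u : HeightOneSpectrum (𝓞 E) | RamBelow k K u}.encard ≤ B := h h1 h2
  have h4 : {u : HeightOneSpectrum (𝓞 E) | RamBelow k K u} =
      {u | ¬ Pool.Agent.Q92.AR.Unramified K (u.under (𝓞 k))} := by
    ext u
    exact ram_iff u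
  rw [h4] at h3
  change Nat.card {u : HeightOneSpectrum (𝓞 E) // ¬ Pool.Agent.Q92.AR.Unramified K (u.under (𝓞 k))} ≤ B
  have h5 : (Set.ncard {u : HeightOneSpectrum (𝓞 E) |
      ¬ Pool.Agent.Q92.AR.Unramified K (u.under (𝓞 k))} : ℕ∞) ≤ B := by
    rw [(Pool.Agent.H515.LP.cb_fin k K E).cast_ncard_eq]
    exact h3
  exact_mod_cast h5

theorem of_few {k K E : IntermediateField ℚ ℂ} [NumberField k] [NumberField K] [NumberField E]
    {B : ℕ} (h : Pool.Agent.H515.LP.Few k K E B) (h1 : k ≤ K) (h2 : k ≤ E) :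
    letI := incl h1; letI := incl h2
    {u : HeightOneSpectrum (𝓞 E) | RamBelow k K u}.encard ≤ B := by
  let a1 : Algebra k K := incl h1
  let a2 : Algebra k E := incl h2
  have h3 : Nat.card {u : HeightOneSpectrum (𝓞 E) //
      ¬ Pool.Agent.Q92.AR.Unramified K (u.under (𝓞 k))} ≤ B :=
    h inferInstance inferInstance inferInstance h1 h2
  have h4 : {u : HeightOneSpectrum (𝓞 E) | RamBelow k K u} =
      {u | ¬ Pool.Agent.Q92.AR.Unramified K (u.under (𝓞 k))} := by
    ext u
    exact ram_iff u
  change {u : HeightOneSpectrum (𝓞 E) | RamBelow k K u}.encard ≤ B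
  rw [h4, ← (Pool.Agent.H515.LP.cb_fin k K E).cast_ncard_eq]
  exact_mod_cast h3

/-- cyclotomic extensions -/
theorem finDec_of_cyc {p : ℕ} (hp : p.Prime) {k K : IntermediateField ℚ ℂ} [NumberField k]
    [NumberField K] {E : ℕ → IntermediateField ℚ ℂ} [∀ n, NumberField (E n)]
    (h : Cyclotomic p k E) : FinDec k K E := by
  by_cases hk : k ≤ K
  · obtain ⟨B, hB⟩ := Pool.Agent.H515.LP.few_cyc (K := K) hp hk
    refine ⟨B, fun n h1 h2 => ?_⟩
    obtain ⟨m, ζ, h3, h4⟩ := Pool.Agent.H515.LP.cyclo_succ hp (h n)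
    exact of_few (hB (E n) inferInstance m ζ h3 h4) h1 h2
  · exact ⟨0, fun n h1 => absurd h1 hk⟩

theorem cyc_up {p : ℕ} {k K : IntermediateField ℚ ℂ} {E : ℕ → IntermediateField ℚ ℂ} (h1 : k ≤ K)
    (h : Cyclotomic p k E) : Cyclotomic p K (fun n => K ⊔ E n) := by
  intro n
  obtain ⟨m, ζ, h2, h3⟩ := h n
  exact ⟨m, ζ, h2, sup_le le_sup_left (h3.trans (sup_le_sup_right h1 _))⟩

/-- **Main result.** -/
theorem result (p l : ℕ) (hp : p.Prime) (hl : l.Prime) (hne : l ≠ p)
    (k K : IntermediateField ℚ ℂ) [NumberField k] (hR : l ≠ 2 ∨ IsEmpty (k →+* ℝ))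
    (hK : Tower l k K) (E : ℕ → IntermediateField ℚ ℂ) (hE : IsZp p k E)
    [∀ n, NumberField (E n)] [∀ n, NumberField ↥(K ⊔ E n)] :
    -- if the `ℤ_p`-extension is cyclotomic, or the primes ramified in `K` are finitely decomposed in it,
    (Cyclotomic p k E ∨ FinDec k K E →
      -- and the exponent of `l` in the class number of `E_n` is bounded,
      (∃ C : ℕ, ∀ n, padicValNat l (classNumber (E n)) ≤ C) →
      -- then the fields `K E_n` are the layers of a `ℤ_p`-extension of `K`,
      IsZp p K (fun n => K ⊔ E n) ∧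
      -- and the exponent of `l` in their class numbers is eventually constant.
      ∃ γ N : ℕ, ∀ n, N ≤ n → padicValNat l (classNumber ↥(K ⊔ E n)) = γ) ∧
    -- In a cyclotomic extension all primes are finitely decomposed, and the extension of `K` is cyclotomic again.
    (Cyclotomic p k E → FinDec k K E ∧ Cyclotomic p K (fun n => K ⊔ E n)) := by
  have hK' := tower_iff hl hK inferInstance
  have hKf : NumberField K := hK'.fin hl.ne_zero inferInstance
  refine ⟨fun h0 hb => ?_, fun h => ⟨finDec_of_cyc hp h, cyc_up hK'.le h⟩⟩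
  have hF : FinDec k K E := h0.elim (fun h => finDec_of_cyc hp h) id
  obtain ⟨C, hC⟩ := hb
  obtain ⟨B, hB⟩ := hF
  obtain ⟨h1, C', h2⟩ := Pool.Agent.H515.LP.main hp hl hne hK' inferInstance hR E inferInstance hE B
    (fun n => few_of fun h1 h2 => hB n h1 h2) C hC
  refine ⟨h1, ?_⟩
  exact Pool.Agent.H515.LP.bdd_const hp hl hne h1 (C := C') fun n => h2 n _ rfl inferInstance

end Pool.Agent.Results.MP_85533d_nt.LExtensions
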