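import Pool.Agent.H515.LP.OrbM

/-!
# The `l`-part of the class numbers in `ℤ_p`-extensions: the increments, and a gap for the `l`-rank

Let `E_0 = k, E_1, E_2, ...` be the layers of an arbitrary `ℤ_p`-extension of a number field `k`, let `l ≠ p` be a
prime, `l ^ e_n` the exact power of `l` in the class number of `E_n`, and `r_n` the `l`-rank of the class group.
We prove that the law `e_n = β p ^ n + γ` (large `n`) of Q1 holds if and only if the sequence `e_n / p ^ n`
converges, that it holds with `β = 0` if and only if `r_n / p ^ n` tends to `0`, and that otherwise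
`r_n ≥ p ^ n / (l ^ (2 (p - 1)) - 1)` for infinitely many `n`.

Proof. On the `l`-part of the kernel of the norm from `E_{n+1}` to `E_n` no nonzero class is fixed by the subgroup of
order `p` of the cyclic group `Gal(E_{n+1} / k)`, so all orbits of nonzero classes have `p ^ (n+1)` elements, and the
increments are divisible by the order of `l` modulo `p ^ (n+1)`, which is a positive proportion of `p ^ (n+1)`.
-/

set_option autoImplicit false

namespace Pool.Agent.Results.MP_85533d_nt.RankGap

open NumberField IsDedekindDomain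

/-- the inclusion `K ⊆ L` as an algebra structure -/
@[reducible] noncomputable def incl {K L : IntermediateField ℚ ℂ} (h : K ≤ L) : Algebra K L :=
  (IntermediateField.inclusion h).toRingHom.toAlgebra

/-- `K / k` is Galois, with cyclic Galois group, of degree `d`. -/
def CyclicExt (k K : IntermediateField ℚ ℂ) (d : ℕ) : Prop :=
  ∃ h : k ≤ K, letI := incl h
    IsGalois k K ∧ IsCyclic (K ≃ₐ[k] K) ∧ Module.finrank k K = d

/-- `E 0 ≤ E 1 ≤ ...` are the layers of a `ℤ_p`-extension of `k`. -/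
def IsZp (p : ℕ) (k : IntermediateField ℚ ℂ) (E : ℕ → IntermediateField ℚ ℂ) : Prop :=
  Monotone E ∧ ∀ n, CyclicExt k (E n) (p ^ n)

/-- the exponent of `l` in the class number of `K` -/
noncomputable def expo (l : ℕ) (K : Type) [Field K] [NumberField K] : ℕ :=
  padicValNat l (classNumber K)

/-- `l ^ torExpo l i K` is the number of the ideal classes of `K` killed by `l ^ i`; for `i = 1` this exponent is the
`l`-rank of the class group. -/
noncomputable def torExpo (l i : ℕ) (K : Type) [Field K] [NumberField K] : ℕ :=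
  padicValNat l (Nat.card {c : ClassGroup (𝓞 K) // c ^ (l ^ i) = 1})

/-- The law of Q1: `e n = β p ^ n + γ` for all large `n`, with real constants `β ≥ 0` and `γ`. -/
def Law (p : ℕ) (e : ℕ → ℕ) : Prop :=
  ∃ β γ : ℝ, 0 ≤ β ∧ ∃ N : ℕ, ∀ n, N ≤ n → (e n : ℝ) = β * (p : ℝ) ^ n + γ

/-- `e n / p ^ n` converges. -/
def Conv (p : ℕ) (e : ℕ → ℕ) : Prop :=
  ∃ β : ℝ, Filter.Tendsto (fun n => (e n : ℝ) / (p : ℝ) ^ n) Filter.atTop (nhds β)

/-- `e n` is constant for all large `n`. -/
def Stable (e : ℕ → ℕ) : Prop := ∃ γ N : ℕ, ∀ n, N ≤ n → e n = γ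

/-- **Main result.** -/
theorem result (p l : ℕ) (hp : p.Prime) (hl : l.Prime) (hne : l ≠ p)
    (k : IntermediateField ℚ ℂ) [NumberField k] (E : ℕ → IntermediateField ℚ ℂ) (hE : IsZp p k E)
    [∀ n, NumberField (E n)] :
    -- (1) the law of Q1 holds if and only if `e_n / p ^ n` converges; the same for the classes killed by `l ^ i`
    (Law p (fun n => expo l (E n)) ↔ Conv p (fun n => expo l (E n))) ∧
    (∀ i, Law p (fun n => torExpo l i (E n)) ↔ Conv p (fun n => torExpo l i (E n))) ∧
    -- (2) `e_n` is eventually constant if and only if the `l`-rank is `o(p ^ n)`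
    (Stable (fun n => expo l (E n)) ↔
      Filter.Tendsto (fun n => (torExpo l 1 (E n) : ℝ) / (p : ℝ) ^ n) Filter.atTop (nhds 0)) ∧
    -- (3) otherwise the `l`-rank is at least `p ^ n / (l ^ (2 (p - 1)) - 1)` for infinitely many `n`
    (Stable (fun n => expo l (E n)) ∨
      ∀ N : ℕ, ∃ n, N ≤ n ∧ p ^ n ≤ (l ^ (2 * (p - 1)) - 1) * torExpo l 1 (E n)) ∧
    -- (4) the increments are divisible by the order of `l` modulo `p ^ (n + 1)`, which is at least
    -- `p ^ (n + 1) / (l ^ (2 (p - 1)) - 1)`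
    (∀ n, expo l (E n) ≤ expo l (E (n + 1)) ∧
      orderOf (l : ZMod (p ^ (n + 1))) ∣ expo l (E (n + 1)) - expo l (E n)) ∧
    (∀ i n, torExpo l i (E n) ≤ torExpo l i (E (n + 1)) ∧
      orderOf (l : ZMod (p ^ (n + 1))) ∣ torExpo l i (E (n + 1)) - torExpo l i (E n)) ∧
    (∀ n, 0 < orderOf (l : ZMod (p ^ n)) ∧
      p ^ n ∣ (l ^ (2 * (p - 1)) - 1) * orderOf (l : ZMod (p ^ n))) ∧
    -- (5) where the `l`-rank is smaller than this order nothing changes
    (∀ n, torExpo l 1 (E (n + 1)) < orderOf (l : ZMod (p ^ (n + 1))) →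
      expo l (E (n + 1)) = expo l (E n) ∧
        ∀ i, torExpo l i (E (n + 1)) = torExpo l i (E n)) := by
  have s1 := Pool.Agent.H515.LP.step_e hp hl hne hE
  have s2 := Pool.Agent.H515.LP.step_tv hp hl hne hE
  refine ⟨Pool.Agent.H515.LP.law_iff hp hl hne _ fun n => ⟨(s1 n).1, (s1 n).2.1⟩,
    fun i => Pool.Agent.H515.LP.law_iff hp hl hne _ fun n => ⟨(s2 i n).1, (s2 i n).2.1⟩,
    Pool.Agent.H515.LP.const_iff hp hl hne hE, ?_, fun n => ⟨(s1 n).1, (s1 n).2.1⟩,
    fun i n => ⟨(s2 i n).1, (s2 i n).2.1⟩,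
    fun n => ⟨Pool.Agent.H515.LP.ord_pos hp hl hne n, Pool.Agent.H515.LP.ord_dvd hp hl hne n⟩,
    fun n hn => ⟨(s1 n).2.2 hn, fun i => (s2 i n).2.2 hn⟩⟩
  by_cases h : Stable (fun n => expo l (E n))
  · exact Or.inl h
  · exact Or.inr fun N => Pool.Agent.H515.LP.alt hp hl hne hE h N

end Pool.Agent.Results.MP_85533d_nt.RankGap
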